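import Pool.Agent.H22K.Poset

/-!
The maximal deck and the enhanced deck of a finite ordered set together determine the number of
copies of every smaller ordered set, and in particular the usual deck.
-/

namespace Pool.Agent.Results.MP_ed0ba8_co.DeckFromTwoDecks

open Pool.Agent.H22K

universe u

/-- Let `P` and `Q` be finite ordered sets with the same maximal deck and the same enhanced deck.
Then every ordered set with fewer elements than `P` has the same number of copies in `P` and in
`Q`; the decks of `P` and `Q` agree; and if `P` is reconstructible from its deck then `Q` is
isomorphic to `P`. -/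
theorem result (P Q : Type u) [PartialOrder P] [PartialOrder Q] [Finite P] [Finite Q]
    (h : SameDecks P Q) :
    (∀ (C : Type u) [PartialOrder C] [Finite C], Nat.card C < Nat.card P →
      Copies P C = Copies Q C) ∧
    (∀ (C : Type u) [PartialOrder C] [Finite C], Deck P C = Deck Q C) ∧
    ((∀ (R : Type u) [PartialOrder R] [Finite R],
      (∀ (C : Type u) [PartialOrder C] [Finite C], Deck P C = Deck R C) →
      Nonempty (P ≃o R)) → Nonempty (P ≃o Q)) :=
  ⟨fun C _ _ hC => copies_of_sameDecks h C hC, fun C _ _ => deck_of_sameDecks h C,
    fun hP => hP Q fun C _ _ => deck_of_sameDecks h C⟩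

end Pool.Agent.Results.MP_ed0ba8_co.DeckFromTwoDecks
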