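import Pool.Agent.H22K.Ordinal

/-!
Finite ordered sets which are disconnected or an ordinal sum of two nonempty parts are
reconstructible from the maximal deck together with the enhanced deck.
-/

namespace Pool.Agent.Results.MP_ed0ba8_co.DisconnectedOrSum

open Pool.Agent.H22K

universe u

/-- A finite ordered set `P` with a set `A`, neither empty nor everything, such that either no
element of `A` is comparable to an element outside `A`, or every element of `A` lies strictly
below every element outside `A`, is reconstructible from its maximal deck and its enhanced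
deck. -/
theorem result (P : Type u) [PartialOrder P] [Finite P] (A : Set P) (h1 : A.Nonempty)
    (h2 : Aᶜ.Nonempty)
    (hA : (∀ a ∈ A, ∀ b ∉ A, ¬ a ≤ b ∧ ¬ b ≤ a) ∨ ∀ a ∈ A, ∀ b ∉ A, a < b)
    (Q : Type u) [PartialOrder Q] [Finite Q] (h : SameDecks P Q) : Nonempty (P ≃o Q) :=
  hA.elim (fun hA => iso_of_disc A h1 h2 hA h) fun hA => iso_of_sum A h1 h2 hA h

end Pool.Agent.Results.MP_ed0ba8_co.DisconnectedOrSum
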