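import Pool.Agent.H22K.Data

/-!
A condition on one element of an ordered set under which the ordered set is reconstructible from
the maximal deck together with the enhanced deck.
-/

namespace Pool.Agent.Results.MP_ed0ba8_co.OneEnhancedCard

open Pool.Agent.H22K

universe u

/-- Let `x` be an element of `P` which is not maximal but all of whose strict upper bounds are
maximal. Suppose that (A) for every maximal `z` which is not above `x` and has as many strict
lower bounds as `x`, either `z` and `x` have the same strict lower bounds or fewer than `|U(x)|`
maximal elements other than `z` lie above all strict lower bounds of `z`, and (B) every maximal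
`v'` not above `x` which lies above all strict lower bounds of `x` and has exactly one strict
lower bound less than some `v > x` satisfies `D(v') = D(v) \ {x}`. Then `P` is reconstructible
from its maximal deck and its enhanced deck. -/
theorem result (P : Type u) [PartialOrder P] [Finite P] (x : P) (hx : ¬ IsMax x)
    (hU : ∀ y, x < y → IsMax y)
    (hA : ∀ z, IsMax z → ¬ x < z → (Set.Iio z).ncard = (Set.Iio x).ncard →
      Set.Iio z = Set.Iio x ∨
        {v | IsMax v ∧ v ≠ z ∧ Set.Iio z ⊆ Set.Iio v}.ncard < (Set.Ioi x).ncard)
    (hB : ∀ v v', x < v → IsMax v' → ¬ x < v' → Set.Iio x ⊆ Set.Iio v' →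
      (Set.Iio v').ncard + 1 = (Set.Iio v).ncard → Set.Iio v' = Set.Iio v \ {x})
    (Q : Type u) [PartialOrder Q] [Finite Q] (h : SameDecks P Q) : Nonempty (P ≃o Q) :=
  iso_of_card hx hU hA hB h

end Pool.Agent.Results.MP_ed0ba8_co.OneEnhancedCard
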