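import Pool.Agent.H22K.Data

/-!
Ordered sets with at most two maximal elements are reconstructible from the maximal deck together
with the enhanced deck.
-/

namespace Pool.Agent.Results.MP_ed0ba8_co.TwoMaximalElements

open Pool.Agent.H22K

universe u

/-- A finite ordered set with at most two maximal elements is reconstructible from its maximal
deck and its enhanced deck. -/
theorem result (P : Type u) [PartialOrder P] [Finite P] (h2 : {m : P | IsMax m}.ncard ≤ 2)
    (Q : Type u) [PartialOrder Q] [Finite Q] (h : SameDecks P Q) : Nonempty (P ≃o Q) :=
  iso_of_two_max h2 h

end Pool.Agent.Results.MP_ed0ba8_co.TwoMaximalElements
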